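import Mathlib
import Pool.Agent.Q31.VF.F
set_option autoImplicit false

/-!
# Virtual fibering of amalgams over infinite virtually cyclic virtual retracts

The amalgamated free product of two virtually fibered groups over a common infinite virtually
cyclic subgroup which is a virtual retract of both factors is virtually fibered.
-/

namespace Pool.Agent.Results.MP_9d1793_al.AmalgamFibering

universe u

/-- A group is virtually cyclic if it has a cyclic subgroup of finite index. -/
def VirtuallyCyclic (G : Type u) [Group G] : Prop :=
  ∃ C : Subgroup G, C.FiniteIndex ∧ IsCyclic C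

/-- A group is fibered if it has a nontrivial homomorphism to `ℤ` with finitely generated kernel. -/
def Fibered (H : Type u) [Group H] : Prop := ∃ χ : H →* Multiplicative ℤ, χ ≠ 1 ∧ χ.ker.FG

/-- A group is virtually fibered if it has a fibered subgroup of finite index. -/
def VirtuallyFibered (G : Type u) [Group G] : Prop := ∃ K : Subgroup G, K.FiniteIndex ∧ Fibered K

/-- `H` is a virtual retract of `G`: there are a subgroup `K` of finite index containing `H` and a
homomorphism from `K` to `H` whose restriction to `H` is the identity. -/
def IsVirtualRetract {G : Type u} [Group G] (H : Subgroup G) : Prop :=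
  ∃ K : Subgroup G, K.FiniteIndex ∧ ∃ h : H ≤ K, ∃ ρ : K →* H, ∀ x : H, ρ (Subgroup.inclusion h x) = x

/-- Let `G₀` be an infinite virtually cyclic group with injective homomorphisms `φ i : G₀ → G i` to
two virtually fibered groups whose images are virtual retracts. Then the amalgamated free product
`Monoid.PushoutI φ` is virtually fibered. -/
theorem result {G : Fin 2 → Type u} {G₀ : Type u} [∀ i, Group (G i)] [Group G₀]
    (φ : ∀ i, G₀ →* G i) (hφ : ∀ i, Function.Injective (φ i)) (h₀ : VirtuallyCyclic G₀)
    (hinf : Infinite G₀) (hF : ∀ i, VirtuallyFibered (G i))
    (hR : ∀ i, IsVirtualRetract (φ i).range) : VirtuallyFibered (Monoid.PushoutI φ) :=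
  Q31VF.final φ hφ h₀ hinf hF hR

end Pool.Agent.Results.MP_9d1793_al.AmalgamFibering
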